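import Pool.Agent.Helper79.EOL.Explicit

/-!
# Short `{S, a}`-forms: certificates for the guarded powers

A right-hand side over the letters `S` (`true`) and `a` (`false`) of length at most two has one
of six types, given by the numbers of its letters: type `0` is the empty word, type `1` is `S`,
type `2` is `a`, type `3` is `SS`, type `4` is `Sa` or `aS`, type `5` is `aa`.
-/

namespace Pool.Agent.Helper21.EOLS

open List Pool.Agent.Helper76.EOL Pool.Agent.Helper79.EOL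

variable {Sp : Bool → List Bool → Prop}

/-- There is a right-hand side with the given numbers of letters. -/
def Q (Sp : Bool → List Bool → Prop) (x : Bool) (p : ℕ × ℕ) : Prop :=
  ∃ w, Sp x w ∧ w.count true = p.1 ∧ w.count false = p.2

/-- The six types. -/
def ty : ℕ → ℕ × ℕ
  | 0 => (0, 0)
  | 1 => (1, 0)
  | 2 => (0, 1)
  | 3 => (2, 0)
  | 4 => (1, 1)
  | _ => (0, 2)

/-- The number of letters rewritten and the numbers of letters obtained when the types in the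
list are used with the given multiplicities. -/
def comb : List ℕ → List ℕ → ℕ × ℕ × ℕ
  | p :: A, n :: N =>
    (n + (comb A N).1, n * (ty p).1 + (comb A N).2.1, n * (ty p).2 + (comb A N).2.2)
  | _, _ => (0, 0, 0)

lemma comb_spec {x : Bool} : ∀ (A N : List ℕ), (∀ p ∈ A, Q Sp x (ty p)) →
    ∃ L : List (List Bool), L.length = (comb A N).1 ∧ (∀ v ∈ L, Sp x v) ∧
      (L.map (fun v => v.count true)).sum = (comb A N).2.1 ∧
      (L.map (fun v => v.count false)).sum = (comb A N).2.2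
  | [], _, _ => ⟨[], by simp [comb]⟩
  | _ :: _, [], _ => ⟨[], by simp [comb]⟩
  | p :: A, n :: N, h => by
    obtain ⟨L, h1, h2, h3, h4⟩ := comb_spec A N (fun q hq => h q (mem_cons_of_mem _ hq))
    obtain ⟨w, h5, h6, h7⟩ := h p mem_cons_self
    refine ⟨replicate n w ++ L, ?_, ?_, ?_, ?_⟩
    · rw [length_append, length_replicate, h1]
      rfl
    · intro v hv
      rcases mem_append.1 hv with hv | hv
      · rw [eq_of_mem_replicate hv]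
        exact h5
      · exact h2 v hv
    · rw [map_append, sum_append, sum_map_replicate, h3, h6]
      rfl
    · rw [map_append, sum_append, sum_map_replicate, h4, h7]
      rfl

/-- Run a list of parallel steps, given by multiplicities, on the numbers of letters. -/
def run (A B : List ℕ) : List (List ℕ × List ℕ) → ℕ → ℕ → Option (ℕ × ℕ)
  | [], x, y => some (x, y)
  | c :: r, x, y =>
    if 0 < x ∧ (comb A c.1).1 = x ∧ (comb B c.2).1 = y then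
      run A B r ((comb A c.1).2.1 + (comb B c.2).2.1) ((comb A c.1).2.2 + (comb B c.2).2.2)
    else none

lemma run_spec {A B : List ℕ} (hA : ∀ p ∈ A, Q Sp true (ty p)) (hB : ∀ p ∈ B, Q Sp false (ty p))
    (r : List (List ℕ × List ℕ)) : ∀ (z : List Bool) (k : ℕ),
      run A B r (z.count true) (z.count false) = some (0, k) →
        GCh Sp r.length z (replicate k false) := by
  induction r with
  | nil =>
    intro z k h
    unfold run at h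
    have h1 : (z.count true, z.count false) = (0, k) := Option.some.inj h
    exact eq_replicate_false (congrArg Prod.fst h1) (congrArg Prod.snd h1)
  | cons c r ih =>
    intro z k h
    unfold run at h
    split_ifs at h with h1
    obtain ⟨h2, h3, h4⟩ := h1
    obtain ⟨L, h5, h6, h7, h8⟩ := comb_spec A c.1 hA
    obtain ⟨M, h9, h10, h11, h12⟩ := comb_spec B c.2 hB
    obtain ⟨w, h13, h14, h15⟩ := step_dec (h5.trans h3) (h9.trans h4) h6 h10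
    rw [h7, h11] at h14
    rw [h8, h12] at h15
    rw [← h14, ← h15] at h
    exact ⟨count_pos_iff.1 h2, w, h13, ih w k h⟩

/-- Check certificates for `a^k`, `a^(k+1)`, ... -/
def chk (A B : List ℕ) : ℕ → List (List (List ℕ × List ℕ)) → Bool
  | _, [] => true
  | k, c :: cs => (run A B c 1 0 == some (0, k)) && chk A B (k + 1) cs

lemma chk_spec {A B : List ℕ} (hA : ∀ p ∈ A, Q Sp true (ty p))
    (hB : ∀ p ∈ B, Q Sp false (ty p)) (cs : List (List (List ℕ × List ℕ))) :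
    ∀ k, chk A B k cs = true → ∀ j, k ≤ j → j < k + cs.length → GK Sp j := by
  induction cs with
  | nil =>
    intro k _ j h1 h2
    rw [length_nil] at h2
    omega
  | cons c cs ih =>
    intro k h j h1 h2
    unfold chk at h
    rw [Bool.and_eq_true, beq_iff_eq] at h
    obtain ⟨h3, h4⟩ := h
    rw [length_cons] at h2
    rcases Nat.lt_or_ge k j with hj | hj
    · exact ih (k + 1) h4 j hj (by omega)
    · have hj : j = k := by omega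
      subst hj
      exact GK.of_gch (run_spec hA hB c [true] j h3)

/-- Certificates, part 0. -/
def pats0 : List (List ℕ × List ℕ × List (List (List ℕ × List ℕ))) := [
  ([0, 4], [1, 2], [
    [([0, 1], [0, 0]), ([1, 0], [0, 1])],
    [([0, 1], [0, 0]), ([0, 1], [0, 1]), ([1, 0], [0, 2])],
    [([0, 1], [0, 0]), ([0, 1], [0, 1]), ([0, 1], [0, 2]), ([1, 0], [0, 3])],
    [([0, 1], [0, 0]), ([0, 1], [0, 1]), ([0, 1], [0, 2]), ([0, 1], [0, 3]), ([1, 0], [0, 4])],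
    [([0, 1], [0, 0]), ([0, 1], [1, 0]), ([0, 2], [0, 1]), ([0, 2], [0, 3]), ([2, 0], [0, 5])],
    [([0, 1], [0, 0]), ([0, 1], [1, 0]), ([0, 2], [0, 1]), ([0, 2], [0, 3]), ([1, 1], [0, 5]),
      ([1, 0], [0, 6])]]),
  ([0, 4], [2, 3], [
    [([0, 1], [0, 0]), ([1, 0], [1, 0])],
    [([0, 1], [0, 0]), ([0, 1], [1, 0]), ([1, 0], [2, 0])],
    [([0, 1], [0, 0]), ([0, 1], [0, 1]), ([1, 2], [1, 0]), ([2, 0], [3, 0])],
    [([0, 1], [0, 0]), ([0, 1], [0, 1]), ([0, 3], [1, 0]), ([3, 0], [4, 0])],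
    [([0, 1], [0, 0]), ([0, 1], [0, 1]), ([0, 3], [1, 0]), ([2, 1], [4, 0]), ([1, 0], [5, 0])],
    [([0, 1], [0, 0]), ([0, 1], [0, 1]), ([0, 3], [1, 0]), ([2, 1], [4, 0]), ([0, 1], [5, 0]),
      ([1, 0], [6, 0])]]),
  ([0, 4], [2, 4], [
    [([0, 1], [0, 0]), ([1, 0], [1, 0])],
    [([0, 1], [0, 0]), ([0, 1], [0, 1]), ([2, 0], [2, 0])],
    [([0, 1], [0, 0]), ([0, 1], [0, 1]), ([1, 1], [0, 2]), ([3, 0], [3, 0])],
    [([0, 1], [0, 0]), ([0, 1], [0, 1]), ([0, 2], [1, 1]), ([3, 0], [4, 0])],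
    [([0, 1], [0, 0]), ([0, 1], [0, 1]), ([0, 2], [1, 1]), ([2, 1], [3, 1]), ([2, 0], [5, 0])],
    [([0, 1], [0, 0]), ([0, 1], [0, 1]), ([0, 2], [1, 1]), ([2, 1], [3, 1]), ([1, 1], [5, 0]),
      ([1, 0], [6, 0])]]),
  ([2, 3], [0, 1], [
    [([1, 0], [0, 0])],
    [([0, 1], [0, 0]), ([2, 0], [0, 0])],
    [([0, 1], [0, 0]), ([1, 1], [0, 0]), ([1, 1], [0, 1]), ([3, 0], [1, 0])],
    [([0, 1], [0, 0]), ([0, 2], [0, 0]), ([4, 0], [0, 0])],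
    [([0, 1], [0, 0]), ([1, 1], [0, 0]), ([0, 2], [0, 1]), ([5, 0], [0, 0])],
    [([0, 1], [0, 0]), ([0, 2], [0, 0]), ([3, 1], [0, 0]), ([0, 2], [1, 2]), ([6, 0], [0, 0])]]),
  ([2, 3], [0, 4], [
    [([1, 0], [0, 0])],
    [([0, 1], [0, 0]), ([2, 0], [0, 0])],
    [([0, 1], [0, 0]), ([1, 1], [0, 0]), ([1, 1], [0, 1]), ([3, 0], [2, 0])],
    [([0, 1], [0, 0]), ([0, 2], [0, 0]), ([4, 0], [0, 0])],
    [([0, 1], [0, 0]), ([1, 1], [0, 0]), ([0, 2], [0, 1]), ([5, 0], [1, 0])],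
    [([0, 1], [0, 0]), ([1, 1], [0, 0]), ([1, 1], [0, 1]), ([0, 3], [2, 0]), ([6, 0], [0, 0])]]),
  ([2, 3], [1, 2], [
    [([1, 0], [0, 0])],
    [([0, 1], [0, 0]), ([2, 0], [0, 0])],
    [([0, 1], [0, 0]), ([1, 1], [0, 0]), ([2, 0], [0, 1])],
    [([0, 1], [0, 0]), ([0, 2], [0, 0]), ([4, 0], [0, 0])],
    [([0, 1], [0, 0]), ([0, 2], [0, 0]), ([3, 1], [0, 0]), ([2, 0], [0, 3])],
    [([0, 1], [0, 0]), ([0, 2], [0, 0]), ([2, 2], [0, 0]), ([4, 0], [0, 2])]]),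
  ([2, 4], [0, 1], [
    [([1, 0], [0, 0])],
    [([0, 1], [0, 0]), ([0, 1], [0, 1]), ([2, 0], [1, 0])],
    [([0, 1], [0, 0]), ([0, 1], [0, 1]), ([0, 2], [0, 1]), ([3, 0], [2, 0])],
    [([0, 1], [0, 0]), ([0, 1], [0, 1]), ([0, 2], [0, 1]), ([0, 3], [1, 1]), ([4, 0], [3, 0])],
    [([0, 1], [0, 0]), ([0, 1], [0, 1]), ([0, 2], [0, 1]), ([1, 2], [2, 0]), ([0, 2], [0, 3]),
      ([5, 0], [2, 0])],
    [([0, 1], [0, 0]), ([0, 1], [0, 1]), ([0, 2], [0, 1]), ([1, 2], [2, 0]), ([0, 2], [0, 3]),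
      ([4, 1], [2, 0]), ([0, 1], [0, 5]), ([6, 0], [1, 0])]]),
  ([2, 4], [0, 3], [
    [([1, 0], [0, 0])],
    [([0, 1], [0, 0]), ([1, 0], [0, 1]), ([2, 0], [1, 0])],
    [([0, 1], [0, 0]), ([0, 1], [0, 1]), ([3, 0], [1, 0])],
    [([0, 1], [0, 0]), ([0, 1], [0, 1]), ([1, 2], [0, 1]), ([4, 0], [3, 0])],
    [([0, 1], [0, 0]), ([0, 1], [0, 1]), ([1, 2], [1, 0]), ([1, 1], [1, 2]), ([5, 0], [2, 0])],
    [([0, 1], [0, 0]), ([0, 1], [0, 1]), ([2, 1], [1, 0]), ([1, 0], [0, 3]), ([6, 0], [1, 0])]])]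

/-- Certificates, part 1. -/
def pats1 : List (List ℕ × List ℕ × List (List (List ℕ × List ℕ))) := [
  ([2, 4], [0, 4], [
    [([1, 0], [0, 0])],
    [([0, 1], [0, 0]), ([0, 1], [0, 1]), ([2, 0], [2, 0])],
    [([0, 1], [0, 0]), ([0, 1], [0, 1]), ([0, 2], [1, 1]), ([3, 0], [3, 0])],
    [([0, 1], [0, 0]), ([0, 1], [0, 1]), ([0, 2], [0, 2]), ([4, 0], [4, 0])],
    [([0, 1], [0, 0]), ([0, 1], [0, 1]), ([0, 2], [0, 2]), ([0, 4], [3, 1]), ([5, 0], [5, 0])],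
    [([0, 1], [0, 0]), ([0, 1], [0, 1]), ([0, 2], [0, 2]), ([0, 4], [2, 2]), ([6, 0], [6, 0])]]),
  ([2, 4], [1, 2], [
    [([1, 0], [0, 0])],
    [([0, 1], [0, 0]), ([1, 0], [0, 1])],
    [([0, 1], [0, 0]), ([0, 1], [0, 1]), ([1, 0], [0, 2])],
    [([0, 1], [0, 0]), ([0, 1], [0, 1]), ([0, 1], [0, 2]), ([1, 0], [0, 3])],
    [([0, 1], [0, 0]), ([0, 1], [1, 0]), ([0, 2], [0, 1]), ([2, 0], [0, 3])],
    [([0, 1], [0, 0]), ([0, 1], [0, 1]), ([0, 1], [1, 1]), ([0, 2], [0, 2]), ([2, 0], [0, 4])]]),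
  ([0, 2, 3], [1], [
    [([0, 1, 0], [0])],
    [([0, 0, 1], [0]), ([0, 2, 0], [0])],
    [([0, 0, 1], [0]), ([0, 0, 2], [0]), ([1, 3, 0], [0])],
    [([0, 0, 1], [0]), ([0, 0, 2], [0]), ([0, 4, 0], [0])],
    [([0, 0, 1], [0]), ([0, 0, 2], [0]), ([1, 0, 3], [0]), ([1, 5, 0], [0])],
    [([0, 0, 1], [0]), ([0, 0, 2], [0]), ([1, 0, 3], [0]), ([0, 6, 0], [0])]]),
  ([0, 2, 3], [3], [
    [([0, 1, 0], [0])],
    [([0, 0, 1], [0]), ([0, 2, 0], [0])],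
    [([0, 0, 1], [0]), ([0, 0, 2], [0]), ([1, 3, 0], [0])],
    [([0, 0, 1], [0]), ([0, 0, 2], [0]), ([0, 4, 0], [0])],
    [([0, 0, 1], [0]), ([0, 0, 2], [0]), ([1, 0, 3], [0]), ([1, 5, 0], [0])],
    [([0, 0, 1], [0]), ([0, 0, 2], [0]), ([1, 0, 3], [0]), ([0, 6, 0], [0])]]),
  ([0, 2, 3], [4], [
    [([0, 1, 0], [0])],
    [([0, 0, 1], [0]), ([0, 2, 0], [0])],
    [([0, 0, 1], [0]), ([0, 0, 2], [0]), ([1, 3, 0], [0])],
    [([0, 0, 1], [0]), ([0, 0, 2], [0]), ([0, 4, 0], [0])],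
    [([0, 0, 1], [0]), ([0, 0, 2], [0]), ([1, 0, 3], [0]), ([1, 5, 0], [0])],
    [([0, 0, 1], [0]), ([0, 0, 2], [0]), ([1, 0, 3], [0]), ([0, 6, 0], [0])]]),
  ([0, 2, 4], [1], [
    [([0, 1, 0], [0])],
    [([0, 0, 1], [0]), ([0, 0, 1], [1]), ([0, 0, 2], [1]), ([3, 0, 0], [2]), ([0, 2, 0], [0])],
    [([0, 0, 1], [0]), ([0, 0, 1], [1]), ([0, 0, 2], [1]), ([0, 1, 2], [2]), ([4, 0, 0], [3]),
      ([0, 3, 0], [0])],
    [([0, 0, 1], [0]), ([0, 0, 1], [1]), ([0, 0, 2], [1]), ([0, 1, 2], [2]), ([0, 4, 0], [3]),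
      ([3, 0, 0], [4]), ([0, 4, 0], [0])],
    [([0, 0, 1], [0]), ([0, 0, 1], [1]), ([0, 0, 2], [1]), ([0, 1, 2], [2]), ([2, 0, 2], [3]),
      ([0, 5, 0], [2]), ([2, 0, 0], [5]), ([0, 5, 0], [0])],
    [([0, 0, 1], [0]), ([0, 0, 1], [1]), ([0, 0, 2], [1]), ([0, 1, 2], [2]), ([2, 0, 2], [3]),
      ([0, 5, 0], [2]), ([1, 0, 1], [5]), ([0, 6, 0], [1]), ([1, 0, 0], [6]), ([0, 6, 0], [0])]]),
  ([0, 2, 4], [3], [
    [([0, 1, 0], [0])],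
    [([0, 0, 1], [0]), ([1, 0, 0], [1]), ([0, 2, 0], [0])],
    [([0, 0, 1], [0]), ([0, 0, 1], [1]), ([0, 2, 1], [1]), ([3, 0, 0], [3]), ([3, 3, 0], [0])],
    [([0, 0, 1], [0]), ([0, 0, 1], [1]), ([0, 2, 1], [1]), ([3, 0, 0], [3]), ([2, 4, 0], [0])],
    [([0, 0, 1], [0]), ([0, 0, 1], [1]), ([0, 2, 1], [1]), ([3, 0, 0], [3]), ([1, 5, 0], [0])],
    [([0, 0, 1], [0]), ([0, 0, 1], [1]), ([0, 2, 1], [1]), ([3, 0, 0], [3]), ([0, 6, 0], [0])]]),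
  ([1, 2, 3], [1], [
    [([0, 1, 0], [0])],
    [([0, 0, 1], [0]), ([0, 2, 0], [0])],
    [([0, 0, 1], [0]), ([1, 0, 1], [0]), ([0, 3, 0], [0])],
    [([0, 0, 1], [0]), ([0, 0, 2], [0]), ([0, 4, 0], [0])],
    [([0, 0, 1], [0]), ([0, 0, 2], [0]), ([3, 0, 1], [0]), ([0, 5, 0], [0])],
    [([0, 0, 1], [0]), ([0, 0, 2], [0]), ([2, 0, 2], [0]), ([0, 6, 0], [0])]])]

/-- Certificates, part 2. -/
def pats2 : List (List ℕ × List ℕ × List (List (List ℕ × List ℕ))) := [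
  ([1, 2, 3], [3], [
    [([0, 1, 0], [0])],
    [([0, 0, 1], [0]), ([0, 2, 0], [0])],
    [([0, 0, 1], [0]), ([1, 0, 1], [0]), ([0, 3, 0], [0])],
    [([0, 0, 1], [0]), ([0, 0, 2], [0]), ([0, 4, 0], [0])],
    [([0, 0, 1], [0]), ([0, 0, 2], [0]), ([3, 0, 1], [0]), ([0, 5, 0], [0])],
    [([0, 0, 1], [0]), ([0, 0, 2], [0]), ([2, 0, 2], [0]), ([0, 6, 0], [0])]]),
  ([1, 2, 3], [4], [
    [([0, 1, 0], [0])],
    [([0, 0, 1], [0]), ([0, 2, 0], [0])],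
    [([0, 0, 1], [0]), ([1, 0, 1], [0]), ([0, 3, 0], [0])],
    [([0, 0, 1], [0]), ([0, 0, 2], [0]), ([0, 4, 0], [0])],
    [([0, 0, 1], [0]), ([0, 0, 2], [0]), ([3, 0, 1], [0]), ([0, 5, 0], [0])],
    [([0, 0, 1], [0]), ([0, 0, 2], [0]), ([2, 0, 2], [0]), ([0, 6, 0], [0])]]),
  ([1, 2, 4], [1], [
    [([0, 1, 0], [0])],
    [([0, 0, 1], [0]), ([1, 0, 0], [1]), ([0, 2, 0], [0])],
    [([0, 0, 1], [0]), ([0, 0, 1], [1]), ([2, 0, 0], [1]), ([0, 3, 0], [0])],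
    [([0, 0, 1], [0]), ([0, 0, 1], [1]), ([0, 1, 1], [1]), ([2, 0, 0], [2]), ([0, 4, 0], [0])],
    [([0, 0, 1], [0]), ([0, 0, 1], [1]), ([0, 0, 2], [1]), ([3, 0, 0], [2]), ([0, 5, 0], [0])],
    [([0, 0, 1], [0]), ([0, 0, 1], [1]), ([0, 0, 2], [1]), ([0, 2, 1], [2]), ([3, 0, 0], [3]),
      ([0, 6, 0], [0])]]),
  ([2, 3, 4], [1], [
    [([1, 0, 0], [0])],
    [([0, 1, 0], [0]), ([2, 0, 0], [0])],
    [([0, 0, 1], [0]), ([0, 1, 0], [1]), ([3, 0, 0], [0])],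
    [([0, 1, 0], [0]), ([0, 2, 0], [0]), ([4, 0, 0], [0])],
    [([0, 0, 1], [0]), ([0, 0, 1], [1]), ([0, 2, 0], [1]), ([5, 0, 0], [0])],
    [([0, 0, 1], [0]), ([0, 1, 0], [1]), ([0, 3, 0], [0]), ([6, 0, 0], [0])]]),
  ([2, 3, 5], [1], [
    [([1, 0, 0], [0])],
    [([0, 0, 1], [0])],
    [([0, 1, 0], [0]), ([1, 0, 1], [0])],
    [([0, 1, 0], [0]), ([0, 0, 2], [0])],
    [([0, 1, 0], [0]), ([0, 2, 0], [0]), ([3, 0, 1], [0])],
    [([0, 1, 0], [0]), ([0, 2, 0], [0]), ([2, 0, 2], [0])]]),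
  ([2, 3], [0, 2, 3], [
    [([1, 0], [0, 0, 0])],
    [([0, 1], [0, 0, 0]), ([2, 0], [0, 0, 0])],
    [([0, 1], [0, 0, 0]), ([1, 1], [0, 0, 0]), ([2, 0], [0, 1, 0])],
    [([0, 1], [0, 0, 0]), ([0, 2], [0, 0, 0]), ([4, 0], [0, 0, 0])],
    [([0, 1], [0, 0, 0]), ([0, 2], [0, 0, 0]), ([2, 2], [0, 0, 0]), ([4, 0], [1, 1, 0])],
    [([0, 1], [0, 0, 0]), ([0, 2], [0, 0, 0]), ([2, 2], [0, 0, 0]), ([4, 0], [0, 2, 0])]]),
  ([0, 2, 4], [4, 5], [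
    [([0, 1, 0], [0, 0])],
    [([0, 0, 1], [0, 0]), ([1, 0, 0], [0, 1])],
    [([0, 0, 1], [0, 0]), ([0, 1, 0], [0, 1])],
    [([0, 0, 1], [0, 0]), ([0, 0, 1], [1, 0]), ([2, 0, 0], [0, 2])],
    [([0, 0, 1], [0, 0]), ([0, 0, 1], [1, 0]), ([1, 1, 0], [0, 2])],
    [([0, 0, 1], [0, 0]), ([0, 0, 1], [0, 1]), ([1, 0, 0], [0, 3])]]),
  ([0, 3, 5], [1, 2], [
    [([0, 1, 0], [0, 0]), ([0, 1, 1], [0, 0]), ([0, 2, 0], [1, 1]), ([5, 0, 0], [0, 1])],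
    [([0, 0, 1], [0, 0])],
    [([0, 1, 0], [0, 0]), ([0, 1, 1], [0, 0]), ([0, 1, 1], [1, 1]), ([3, 0, 0], [0, 3])],
    [([0, 1, 0], [0, 0]), ([0, 0, 2], [0, 0])],
    [([0, 1, 0], [0, 0]), ([0, 1, 1], [0, 0]), ([0, 0, 2], [1, 1]), ([1, 0, 0], [0, 5])],
    [([0, 1, 0], [0, 0]), ([0, 1, 1], [0, 0]), ([0, 0, 2], [0, 2])]])]

/-- Certificates, part 3. -/
def pats3 : List (List ℕ × List ℕ × List (List (List ℕ × List ℕ))) := [
  ([0, 3, 5], [2, 3], [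
    [([0, 1, 0], [0, 0]), ([0, 1, 1], [0, 0]), ([1, 1, 0], [1, 1]), ([4, 0, 0], [1, 0])],
    [([0, 0, 1], [0, 0])],
    [([0, 1, 0], [0, 0]), ([0, 1, 1], [0, 0]), ([1, 0, 1], [1, 1]), ([2, 0, 0], [3, 0])],
    [([0, 1, 0], [0, 0]), ([0, 0, 2], [0, 0])],
    [([0, 1, 0], [0, 0]), ([0, 1, 1], [0, 0]), ([1, 0, 1], [1, 1]), ([1, 0, 1], [3, 0])],
    [([0, 1, 0], [0, 0]), ([0, 1, 1], [0, 0]), ([0, 0, 2], [2, 0])]]),
  ([1, 2, 4], [2, 3], [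
    [([0, 1, 0], [0, 0])],
    [([0, 0, 1], [0, 0]), ([0, 1, 0], [1, 0])],
    [([0, 0, 1], [0, 0]), ([0, 0, 1], [1, 0]), ([0, 1, 0], [2, 0])],
    [([0, 0, 1], [0, 0]), ([0, 0, 1], [0, 1]), ([0, 3, 0], [1, 0])],
    [([0, 0, 1], [0, 0]), ([0, 0, 1], [0, 1]), ([0, 2, 1], [1, 0]), ([0, 1, 0], [4, 0])],
    [([0, 0, 1], [0, 0]), ([0, 0, 1], [0, 1]), ([0, 1, 2], [1, 0]), ([0, 2, 0], [4, 0])]]),
  ([1, 2, 4], [2, 4], [
    [([0, 1, 0], [0, 0])],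
    [([0, 0, 1], [0, 0]), ([0, 1, 0], [1, 0])],
    [([0, 0, 1], [0, 0]), ([0, 0, 1], [1, 0]), ([0, 1, 0], [2, 0])],
    [([0, 0, 1], [0, 0]), ([0, 0, 1], [0, 1]), ([0, 2, 0], [2, 0])],
    [([0, 0, 1], [0, 0]), ([0, 0, 1], [0, 1]), ([0, 1, 1], [2, 0]), ([0, 1, 0], [4, 0])],
    [([0, 0, 1], [0, 0]), ([0, 0, 1], [0, 1]), ([0, 0, 2], [2, 0]), ([0, 2, 0], [4, 0])]]),
  ([2, 3, 5], [0, 3], [
    [([1, 0, 0], [0, 0])],
    [([0, 0, 1], [0, 0])],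
    [([0, 1, 0], [0, 0]), ([1, 0, 1], [0, 0])],
    [([0, 1, 0], [0, 0]), ([0, 0, 2], [0, 0])],
    [([0, 1, 0], [0, 0]), ([0, 2, 0], [0, 0]), ([3, 0, 1], [0, 0])],
    [([0, 1, 0], [0, 0]), ([0, 2, 0], [0, 0]), ([2, 0, 2], [0, 0])]]),
  ([2, 4, 5], [1, 5], [
    [([1, 0, 0], [0, 0])],
    [([0, 0, 1], [0, 0])],
    [([0, 1, 0], [0, 0]), ([1, 0, 0], [0, 1])],
    [([0, 1, 0], [0, 0]), ([0, 0, 1], [0, 1])],
    [([0, 1, 0], [0, 0]), ([0, 0, 1], [1, 0]), ([1, 0, 0], [0, 2])],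
    [([0, 1, 0], [0, 0]), ([0, 0, 1], [1, 0]), ([0, 0, 1], [0, 2])]]),
  ([1, 2, 4, 5], [3], [
    [([0, 1, 0, 0], [0])],
    [([0, 0, 0, 1], [0])],
    [([0, 0, 1, 0], [0]), ([1, 0, 0, 0], [1]), ([0, 3, 0, 0], [0])],
    [([0, 0, 1, 0], [0]), ([1, 0, 0, 0], [1]), ([0, 2, 0, 1], [0])],
    [([0, 0, 1, 0], [0]), ([1, 0, 0, 0], [1]), ([0, 1, 0, 2], [0])],
    [([0, 0, 1, 0], [0]), ([1, 0, 0, 0], [1]), ([0, 0, 0, 3], [0])]]),
  ([0, 3, 5], [0, 2, 4], [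
    [([0, 1, 0], [0, 0, 0]), ([0, 1, 1], [0, 0, 0]), ([2, 0, 0], [1, 1, 0])],
    [([0, 0, 1], [0, 0, 0])],
    [([0, 1, 0], [0, 0, 0]), ([0, 1, 1], [0, 0, 0]), ([1, 0, 1], [1, 1, 0])],
    [([0, 1, 0], [0, 0, 0]), ([0, 0, 2], [0, 0, 0])],
    [([0, 1, 0], [0, 0, 0]), ([0, 1, 1], [0, 0, 0]), ([0, 0, 2], [1, 1, 0])],
    [([0, 1, 0], [0, 0, 0]), ([0, 1, 1], [0, 0, 0]), ([0, 0, 2], [0, 2, 0])]])]

/-- The complements of the incomplete sets. -/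
def cnf : List (List ℕ × List ℕ) := [
  ([2, 4, 5], []), ([0, 1, 4, 5], [1, 2, 4]), ([0, 1, 4, 5], [0, 2]), ([0, 1, 3, 5], [0, 2]),
    ([0, 3, 5], [0, 1, 2]), ([3, 4], []), ([2, 4], [0, 1, 3]), ([0, 1, 3], [0, 2, 5]), ([0, 3],
      [0, 1, 2, 3]), ([3], [0, 1, 2, 3, 5]), ([0, 2], []), ([2], [2]), ([0, 1], [0, 1]), ([], [1,
        3, 4])]

/-- The minimal complete sets. -/
def dnf : List (List ℕ × List ℕ) := [
  ([0, 4], [1, 2]), ([0, 4], [2, 3]), ([0, 4], [2, 4]), ([2, 3], [0, 1]), ([2, 3], [0, 4]), ([2,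
    3], [1, 2]), ([2, 4], [0, 1]), ([2, 4], [0, 3]), ([2, 4], [0, 4]), ([2, 4], [1, 2]), ([0, 2,
      3], [1]), ([0, 2, 3], [3]), ([0, 2, 3], [4]), ([0, 2, 4], [1]), ([0, 2, 4], [3]), ([1, 2,
        3], [1]), ([1, 2, 3], [3]), ([1, 2, 3], [4]), ([1, 2, 4], [1]), ([2, 3, 4], [1]), ([2, 3,
          5], [1]), ([2, 3], [0, 2, 3]), ([0, 2, 4], [4, 5]), ([0, 3, 5], [1, 2]), ([0, 3, 5],
            [2, 3]), ([1, 2, 4], [2, 3]), ([1, 2, 4], [2, 4]), ([2, 3, 5], [0, 3]), ([2, 4, 5],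
              [1, 5]), ([1, 2, 4, 5], [3]), ([0, 3, 5], [0, 2, 4])]

/-- All certificates are correct. -/
theorem pats_ok : ∀ p ∈ pats0 ++ pats1 ++ pats2 ++ pats3,
    chk p.1 p.2.1 1 p.2.2 = true ∧ p.2.2.length = 6 := by
  decide +kernel

theorem dnf_pats : ∀ q ∈ dnf, ∃ p ∈ pats0 ++ pats1 ++ pats2 ++ pats3, p.1 = q.1 ∧ p.2.1 = q.2 := by
  decide +kernel

/-- Six Boolean values as a function. -/
def fn (b0 b1 b2 b3 b4 b5 : Bool) : ℕ → Bool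
  | 0 => b0
  | 1 => b1
  | 2 => b2
  | 3 => b3
  | 4 => b4
  | _ => b5

/-- If `P` is in none of the incomplete sets, then it contains a minimal complete set. -/
def tst (s t : ℕ → Bool) : Bool :=
  (cnf.any fun c => !(c.1.any s || c.2.any t)) || dnf.any fun p => p.1.all s && p.2.all t

theorem tst_true : ∀ s0 s1 s2 s3 s4 s5 t0 t1 t2 t3 t4 t5 : Bool,
    tst (fn s0 s1 s2 s3 s4 s5) (fn t0 t1 t2 t3 t4 t5) = true := by
  decide +kernel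

lemma fn_Q {x : Bool} [DecidablePred fun i => Q Sp x (ty i)] {i : ℕ} (hi : i < 6) :
    fn (decide (Q Sp x (ty 0))) (decide (Q Sp x (ty 1))) (decide (Q Sp x (ty 2)))
      (decide (Q Sp x (ty 3))) (decide (Q Sp x (ty 4))) (decide (Q Sp x (ty 5))) i = true ↔
      Q Sp x (ty i) := by
  interval_cases i <;> simp [fn]

theorem cnf_lt : ∀ c ∈ cnf, (∀ i ∈ c.1, i < 6) ∧ ∀ i ∈ c.2, i < 6 := by decide +kernel

theorem dnf_lt : ∀ c ∈ dnf, (∀ i ∈ c.1, i < 6) ∧ ∀ i ∈ c.2, i < 6 := by decide +kernel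

theorem exists_pat (h : ∀ c ∈ cnf, (∃ i ∈ c.1, Q Sp true (ty i)) ∨ ∃ i ∈ c.2, Q Sp false (ty i)) :
    ∃ p ∈ dnf, (∀ i ∈ p.1, Q Sp true (ty i)) ∧ ∀ i ∈ p.2, Q Sp false (ty i) := by
  classical
  have ht := tst_true (decide (Q Sp true (ty 0))) (decide (Q Sp true (ty 1)))
    (decide (Q Sp true (ty 2))) (decide (Q Sp true (ty 3))) (decide (Q Sp true (ty 4)))
    (decide (Q Sp true (ty 5))) (decide (Q Sp false (ty 0))) (decide (Q Sp false (ty 1)))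
    (decide (Q Sp false (ty 2))) (decide (Q Sp false (ty 3))) (decide (Q Sp false (ty 4)))
    (decide (Q Sp false (ty 5)))
  unfold tst at ht
  rw [Bool.or_eq_true] at ht
  rcases ht with ht | ht
  · exfalso
    obtain ⟨c, hc, h1⟩ := List.any_eq_true.1 ht
    rw [Bool.not_eq_true', Bool.or_eq_false_iff] at h1
    obtain ⟨h2, h3⟩ := h1
    rcases h c hc with ⟨i, hi, h4⟩ | ⟨i, hi, h4⟩
    · have := List.any_eq_true.2 ⟨i, hi, (fn_Q ((cnf_lt c hc).1 i hi)).2 h4⟩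
      rw [h2] at this
      exact absurd this (by simp)
    · have := List.any_eq_true.2 ⟨i, hi, (fn_Q ((cnf_lt c hc).2 i hi)).2 h4⟩
      rw [h3] at this
      exact absurd this (by simp)
  · obtain ⟨p, hp, h1⟩ := List.any_eq_true.1 ht
    rw [Bool.and_eq_true] at h1
    obtain ⟨h2, h3⟩ := h1
    refine ⟨p, hp, fun i hi => (fn_Q ((dnf_lt p hp).1 i hi)).1 (List.all_eq_true.1 h2 i hi),
      fun i hi => (fn_Q ((dnf_lt p hp).2 i hi)).1 (List.all_eq_true.1 h3 i hi)⟩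

/-- The powers `a^k` with `k ≤ 6` of a short form outside the incomplete sets. -/
theorem gk_of_cnf
    (h : ∀ c ∈ cnf, (∃ i ∈ c.1, Q Sp true (ty i)) ∨ ∃ i ∈ c.2, Q Sp false (ty i)) :
    ∀ k, 1 ≤ k → k ≤ 6 → GK Sp k := by
  obtain ⟨q, hq, h1, h2⟩ := exists_pat h
  obtain ⟨p, hp, h3, h4⟩ := dnf_pats q hq
  obtain ⟨h5, h6⟩ := pats_ok p hp
  rw [← h3] at h1
  rw [← h4] at h2
  intro k hk1 hk2
  exact chk_spec h1 h2 p.2.2 1 h5 k hk1 (by omega)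

end Pool.Agent.Helper21.EOLS
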