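import Pool.Agent.Helper76.EOLDefs

/-!
# The table of the short `{S, a}`-forms
-/

namespace Pool.Agent.Helper21.EOLS

open Pool.Agent.Helper76.EOL

/-- All words of length at most two over the letters `S` and `a`. -/
def allWords {α : Type} (S a : α) : List (List α) :=
  [[], [S], [a], [S, S], [S, a], [a, S], [a, a]]

/-- Sixteen sets of productions of short `{S, a}`-forms.  Each set is given by a pair of lists: the
right-hand sides of its productions for `S` and the right-hand sides of its productions for `a`. -/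
def shortTable {α : Type} (S a : α) : List (List (List α) × List (List α)) := [
  ([[], [S], [S, S]], allWords S a),
  ([[S, S], [a]], [[], [S, S], [a, a]]),
  ([[S, S], [a]], [[S], [S, S], [S, a], [a, S], [a, a]]),
  ([[S, a], [a, S], [a]], [[S], [S, S], [S, a], [a, S], [a, a]]),
  ([[S], [S, a], [a, S], [a]], [[S, S], [S, a], [a, S], [a, a]]),
  ([[], [S], [a], [a, a]], allWords S a),
  ([[], [S], [S, S], [a, a]], [[S, a], [a, S], [a], [a, a]]),
  ([[S, a], [a, S], [a], [a, a]], [[S], [S, S], [S, a], [a, S]]),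
  ([[S], [S, a], [a, S], [a], [a, a]], [[S, a], [a, S], [a, a]]),
  ([[], [S], [S, a], [a, S], [a], [a, a]], [[S, a], [a, S]]),
  ([[S], [S, S], [S, a], [a, S], [a, a]], allWords S a),
  ([[], [S], [S, S], [S, a], [a, S], [a, a]], [[], [S], [S, S], [S, a], [a, S], [a, a]]),
  ([[S, S], [S, a], [a, S], [a], [a, a]], [[S, S], [S, a], [a, S], [a], [a, a]]),
  (allWords S a, [[], [a], [a, a]]),
  ([[S], [S, a], [a, S], [a], [a, a]], [[S, a], [a], [a, a]]),
  ([[S], [S, a], [a, S], [a], [a, a]], [[a, S], [a], [a, a]])]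

/-- Every production of the `{S, a}`-form `F` belongs to the set of productions given by the pair
of lists `t`. -/
def Within (F : Grammar) (a : ℕ) (t : List (List ℕ) × List (List ℕ)) : Prop :=
  (∀ α, (F.S, α) ∈ F.P → α ∈ t.1) ∧ ∀ α, (a, α) ∈ F.P → α ∈ t.2

end Pool.Agent.Helper21.EOLS
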