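import Pool.Agent.Helper21.EOLS.Cert

/-!
# Short `{S, a}`-forms: invariants of guarded derivations
-/

namespace Pool.Agent.Helper21.EOLS

open List Pool.Agent.Helper76.EOL Pool.Agent.Helper79.EOL

variable {Sp : Bool → List Bool → Prop}

/-- One parallel step of a short form on the numbers of letters. -/
lemma par_counts (hd : ∀ x w, Sp x w → w.length ≤ 2) {z w : List Bool} (h : Par Sp z w) :
    ∃ s0 s1 s2 s3 s4 s5 t0 t1 t2 t3 t4 t5 : ℕ,
      z.count true = s0 + s1 + s2 + s3 + s4 + s5 ∧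
      z.count false = t0 + t1 + t2 + t3 + t4 + t5 ∧
      w.count true = s1 + 2 * s3 + s4 + t1 + 2 * t3 + t4 ∧
      w.count false = s2 + s4 + 2 * s5 + t2 + t4 + 2 * t5 ∧
      (s0 ≠ 0 → Q Sp true (ty 0)) ∧ (s1 ≠ 0 → Q Sp true (ty 1)) ∧
      (s2 ≠ 0 → Q Sp true (ty 2)) ∧ (s3 ≠ 0 → Q Sp true (ty 3)) ∧
      (s4 ≠ 0 → Q Sp true (ty 4)) ∧ (s5 ≠ 0 → Q Sp true (ty 5)) ∧
      (t0 ≠ 0 → Q Sp false (ty 0)) ∧ (t1 ≠ 0 → Q Sp false (ty 1)) ∧
      (t2 ≠ 0 → Q Sp false (ty 2)) ∧ (t3 ≠ 0 → Q Sp false (ty 3)) ∧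
      (t4 ≠ 0 → Q Sp false (ty 4)) ∧ (t5 ≠ 0 → Q Sp false (ty 5)) := by
  induction h with
  | nil => exact ⟨0, 0, 0, 0, 0, 0, 0, 0, 0, 0, 0, 0, by simp⟩
  | @cons x u xs v h1 _ ih =>
    obtain ⟨s0, s1, s2, s3, s4, s5, t0, t1, t2, t3, t4, t5, e1, e2, e3, e4, g0, g1, g2, g3, g4,
      g5, k0, k1, k2, k3, k4, k5⟩ := ih
    have hl := hd _ _ h1
    match x, u, h1, hl with
    | true, [], h1, _ =>
      exact ⟨s0 + 1, s1, s2, s3, s4, s5, t0, t1, t2, t3, t4, t5, by simp [e1]; omega, by simp [e2],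
        by simp [e3], by simp [e4], fun _ => ⟨_, h1, rfl, rfl⟩, g1, g2, g3, g4, g5, k0, k1, k2,
        k3, k4, k5⟩
    | true, [true], h1, _ =>
      exact ⟨s0, s1 + 1, s2, s3, s4, s5, t0, t1, t2, t3, t4, t5, by simp [e1]; omega, by simp [e2],
        by simp [e3]; omega, by simp [e4], g0, fun _ => ⟨_, h1, rfl, rfl⟩, g2, g3, g4, g5, k0, k1,
        k2, k3, k4, k5⟩
    | true, [false], h1, _ =>
      exact ⟨s0, s1, s2 + 1, s3, s4, s5, t0, t1, t2, t3, t4, t5, by simp [e1]; omega, by simp [e2],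
        by simp [e3], by simp [e4]; omega, g0, g1, fun _ => ⟨_, h1, rfl, rfl⟩, g3, g4, g5, k0, k1,
        k2, k3, k4, k5⟩
    | true, [true, true], h1, _ =>
      exact ⟨s0, s1, s2, s3 + 1, s4, s5, t0, t1, t2, t3, t4, t5, by simp [e1]; omega, by simp [e2],
        by simp [e3]; omega, by simp [e4], g0, g1, g2, fun _ => ⟨_, h1, rfl, rfl⟩, g4, g5, k0, k1,
        k2, k3, k4, k5⟩
    | true, [true, false], h1, _ =>
      exact ⟨s0, s1, s2, s3, s4 + 1, s5, t0, t1, t2, t3, t4, t5, by simp [e1]; omega, by simp [e2],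
        by simp [e3]; omega, by simp [e4]; omega, g0, g1, g2, g3, fun _ => ⟨_, h1, rfl, rfl⟩, g5,
        k0, k1, k2, k3, k4, k5⟩
    | true, [false, true], h1, _ =>
      exact ⟨s0, s1, s2, s3, s4 + 1, s5, t0, t1, t2, t3, t4, t5, by simp [e1]; omega, by simp [e2],
        by simp [e3]; omega, by simp [e4]; omega, g0, g1, g2, g3, fun _ => ⟨_, h1, rfl, rfl⟩, g5,
        k0, k1, k2, k3, k4, k5⟩
    | true, [false, false], h1, _ =>
      exact ⟨s0, s1, s2, s3, s4, s5 + 1, t0, t1, t2, t3, t4, t5, by simp [e1]; omega, by simp [e2],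
        by simp [e3], by simp [e4]; omega, g0, g1, g2, g3, g4, fun _ => ⟨_, h1, rfl, rfl⟩, k0, k1,
        k2, k3, k4, k5⟩
    | false, [], h1, _ =>
      exact ⟨s0, s1, s2, s3, s4, s5, t0 + 1, t1, t2, t3, t4, t5, by simp [e1], by simp [e2]; omega,
        by simp [e3], by simp [e4], g0, g1, g2, g3, g4, g5, fun _ => ⟨_, h1, rfl, rfl⟩, k1, k2,
        k3, k4, k5⟩
    | false, [true], h1, _ =>
      exact ⟨s0, s1, s2, s3, s4, s5, t0, t1 + 1, t2, t3, t4, t5, by simp [e1], by simp [e2]; omega,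
        by simp [e3]; omega, by simp [e4], g0, g1, g2, g3, g4, g5, k0,
        fun _ => ⟨_, h1, rfl, rfl⟩, k2, k3, k4, k5⟩
    | false, [false], h1, _ =>
      exact ⟨s0, s1, s2, s3, s4, s5, t0, t1, t2 + 1, t3, t4, t5, by simp [e1], by simp [e2]; omega,
        by simp [e3], by simp [e4]; omega, g0, g1, g2, g3, g4, g5, k0, k1,
        fun _ => ⟨_, h1, rfl, rfl⟩, k3, k4, k5⟩
    | false, [true, true], h1, _ =>
      exact ⟨s0, s1, s2, s3, s4, s5, t0, t1, t2, t3 + 1, t4, t5, by simp [e1], by simp [e2]; omega,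
        by simp [e3]; omega, by simp [e4], g0, g1, g2, g3, g4, g5, k0, k1, k2,
        fun _ => ⟨_, h1, rfl, rfl⟩, k4, k5⟩
    | false, [true, false], h1, _ =>
      exact ⟨s0, s1, s2, s3, s4, s5, t0, t1, t2, t3, t4 + 1, t5, by simp [e1], by simp [e2]; omega,
        by simp [e3]; omega, by simp [e4]; omega, g0, g1, g2, g3, g4, g5, k0, k1, k2, k3,
        fun _ => ⟨_, h1, rfl, rfl⟩, k5⟩
    | false, [false, true], h1, _ =>
      exact ⟨s0, s1, s2, s3, s4, s5, t0, t1, t2, t3, t4 + 1, t5, by simp [e1], by simp [e2]; omega,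
        by simp [e3]; omega, by simp [e4]; omega, g0, g1, g2, g3, g4, g5, k0, k1, k2, k3,
        fun _ => ⟨_, h1, rfl, rfl⟩, k5⟩
    | false, [false, false], h1, _ =>
      exact ⟨s0, s1, s2, s3, s4, s5, t0, t1, t2, t3, t4, t5 + 1, by simp [e1], by simp [e2]; omega,
        by simp [e3], by simp [e4]; omega, g0, g1, g2, g3, g4, g5, k0, k1, k2, k3, k4,
        fun _ => ⟨_, h1, rfl, rfl⟩⟩

/-- The effect of one step when the types of the right-hand sides are restricted: `N x i` says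
that type `i` does not occur for the letter `x`. -/
lemma inv (hd : ∀ x w, Sp x w → w.length ≤ 2) (I : ℕ → ℕ → Prop) (h0 : I 1 0)
    (hs : ∀ x y x' y' s0 s1 s2 s3 s4 s5 t0 t1 t2 t3 t4 t5 : ℕ, 0 < x → I x y →
      x = s0 + s1 + s2 + s3 + s4 + s5 → y = t0 + t1 + t2 + t3 + t4 + t5 →
      x' = s1 + 2 * s3 + s4 + t1 + 2 * t3 + t4 → y' = s2 + s4 + 2 * s5 + t2 + t4 + 2 * t5 →
      (¬ Q Sp true (ty 0) → s0 = 0) → (¬ Q Sp true (ty 1) → s1 = 0) →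
      (¬ Q Sp true (ty 2) → s2 = 0) → (¬ Q Sp true (ty 3) → s3 = 0) →
      (¬ Q Sp true (ty 4) → s4 = 0) → (¬ Q Sp true (ty 5) → s5 = 0) →
      (¬ Q Sp false (ty 0) → t0 = 0) → (¬ Q Sp false (ty 1) → t1 = 0) →
      (¬ Q Sp false (ty 2) → t2 = 0) → (¬ Q Sp false (ty 3) → t3 = 0) →
      (¬ Q Sp false (ty 4) → t4 = 0) → (¬ Q Sp false (ty 5) → t5 = 0) → I x' y') {k : ℕ}
    (hk : GK Sp k) : I 0 k := by
  have key : ∀ n z, GCh Sp n [true] z → I (z.count true) (z.count false) := by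
    intro n
    induction n with
    | zero =>
      intro z hz
      have : [true] = z := hz
      subst this
      exact h0
    | succ n ih =>
      intro w hw
      obtain ⟨z, h1, h2, h3⟩ := GCh.succ'.1 hw
      obtain ⟨s0, s1, s2, s3, s4, s5, t0, t1, t2, t3, t4, t5, e1, e2, e3, e4, g0, g1, g2, g3, g4,
        g5, k0, k1, k2, k3, k4, k5⟩ := par_counts hd h3
      exact hs _ _ _ _ s0 s1 s2 s3 s4 s5 t0 t1 t2 t3 t4 t5 (count_pos_iff.2 h2) (ih z h1) e1 e2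
        e3 e4 (fun h => not_not.1 fun h' => h (g0 h')) (fun h => not_not.1 fun h' => h (g1 h'))
        (fun h => not_not.1 fun h' => h (g2 h')) (fun h => not_not.1 fun h' => h (g3 h'))
        (fun h => not_not.1 fun h' => h (g4 h')) (fun h => not_not.1 fun h' => h (g5 h'))
        (fun h => not_not.1 fun h' => h (k0 h')) (fun h => not_not.1 fun h' => h (k1 h'))
        (fun h => not_not.1 fun h' => h (k2 h')) (fun h => not_not.1 fun h' => h (k3 h'))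
        (fun h => not_not.1 fun h' => h (k4 h')) (fun h => not_not.1 fun h' => h (k5 h'))
  obtain ⟨t, ht⟩ := hk
  have := key _ _ ht
  rw [count_replicate_self, count_replicate] at this
  simpa using this

/-- The types that do not occur. -/
def No (Sp : Bool → List Bool → Prop) (c : List ℕ × List ℕ) : Prop :=
  (∀ i ∈ c.1, ¬ Q Sp true (ty i)) ∧ ∀ i ∈ c.2, ¬ Q Sp false (ty i)

variable (hd : ∀ x w, Sp x w → w.length ≤ 2) (hK : ∀ k, 1 ≤ k → GK Sp k)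
include hd hK

/-- `S → e, S, SS`. -/
lemma neg1 : ¬ No Sp ([2, 4, 5], []) := by
  rintro ⟨h1, _⟩
  simp only [mem_cons, forall_eq_or_imp, not_mem_nil, false_imp_iff, forall_const, and_true] at h1
  obtain ⟨a2, a4, a5⟩ := h1
  have := inv hd (fun _ y => y = 0) rfl (by
    intro x y x' y' s0 s1 s2 s3 s4 s5 t0 t1 t2 t3 t4 t5 hx hI e1 e2 e3 e4 g0 g1 g2 g3 g4 g5 k0 k1
      k2 k3 k4 k5
    have := g2 a2
    have := g4 a4
    have := g5 a5
    omega) (hK 1 (by omega))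
  simp at this

/-- `S → SS, a`, `a → e, SS, aa`. -/
lemma neg2 : ¬ No Sp ([0, 1, 4, 5], [1, 2, 4]) := by
  rintro ⟨h1, h2⟩
  simp only [mem_cons, forall_eq_or_imp, not_mem_nil, false_imp_iff, forall_const, and_true] at h1 h2
  obtain ⟨a0, a1, a4, a5⟩ := h1
  obtain ⟨b1, b2, b4⟩ := h2
  have := inv hd (fun x y => (x = 1 ∧ y = 0) ∨ (x = 0 ∧ y = 1) ∨ (x % 2 = 0 ∧ (x = 0 → y % 2 = 0)))
    (Or.inl ⟨rfl, rfl⟩) (by
    intro x y x' y' s0 s1 s2 s3 s4 s5 t0 t1 t2 t3 t4 t5 hx hI e1 e2 e3 e4 g0 g1 g2 g3 g4 g5 k0 k1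
      k2 k3 k4 k5
    have := g0 a0
    have := g1 a1
    have := g4 a4
    have := g5 a5
    have := k1 b1
    have := k2 b2
    have := k4 b4
    omega) (hK 3 (by omega))
  simp at this

/-- `S → SS, a`, `a → S, SS, Sa, aS, aa`. -/
lemma neg3 : ¬ No Sp ([0, 1, 4, 5], [0, 2]) := by
  rintro ⟨h1, h2⟩
  simp only [mem_cons, forall_eq_or_imp, not_mem_nil, false_imp_iff, forall_const, and_true] at h1 h2
  obtain ⟨a0, a1, a4, a5⟩ := h1
  obtain ⟨b0, b2⟩ := h2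
  have := inv hd (fun x y => (x = 1 ∧ y = 0) ∨ (x = 0 ∧ y = 1) ∨ (x = 2 ∧ y = 0) ∨
      (x = 0 ∧ y = 2) ∨ (x = 2 ∧ y = 1) ∨ (x = 1 ∧ y = 2) ∨ 4 ≤ x + y)
    (Or.inl ⟨rfl, rfl⟩) (by
    intro x y x' y' s0 s1 s2 s3 s4 s5 t0 t1 t2 t3 t4 t5 hx hI e1 e2 e3 e4 g0 g1 g2 g3 g4 g5 k0 k1
      k2 k3 k4 k5
    have := g0 a0
    have := g1 a1
    have := g4 a4
    have := g5 a5
    have := k0 b0
    have := k2 b2
    omega) (hK 3 (by omega))
  simp at this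

/-- `S → Sa, aS, a`, `a → S, SS, Sa, aS, aa`. -/
lemma neg4 : ¬ No Sp ([0, 1, 3, 5], [0, 2]) := by
  rintro ⟨h1, h2⟩
  simp only [mem_cons, forall_eq_or_imp, not_mem_nil, false_imp_iff, forall_const, and_true] at h1 h2
  obtain ⟨a0, a1, a3, a5⟩ := h1
  obtain ⟨b0, b2⟩ := h2
  have := inv hd (fun x y => (x = 1 ∧ y = 0) ∨ (x = 0 ∧ y = 1) ∨ (x = 1 ∧ y = 1) ∨ 3 ≤ x + y)
    (Or.inl ⟨rfl, rfl⟩) (by
    intro x y x' y' s0 s1 s2 s3 s4 s5 t0 t1 t2 t3 t4 t5 hx hI e1 e2 e3 e4 g0 g1 g2 g3 g4 g5 k0 k1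
      k2 k3 k4 k5
    have := g0 a0
    have := g1 a1
    have := g3 a3
    have := g5 a5
    have := k0 b0
    have := k2 b2
    omega) (hK 2 (by omega))
  simp at this

/-- `S → S, Sa, aS, a`, `a → SS, Sa, aS, aa`. -/
lemma neg5 : ¬ No Sp ([0, 3, 5], [0, 1, 2]) := by
  rintro ⟨h1, h2⟩
  simp only [mem_cons, forall_eq_or_imp, not_mem_nil, false_imp_iff, forall_const, and_true] at h1 h2
  obtain ⟨a0, a3, a5⟩ := h1
  obtain ⟨b0, b1, b2⟩ := h2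
  have := inv hd (fun x y => (x = 1 ∧ y = 0) ∨ (x = 0 ∧ y = 1) ∨ (x = 1 ∧ y = 1) ∨ 3 ≤ x + y)
    (Or.inl ⟨rfl, rfl⟩) (by
    intro x y x' y' s0 s1 s2 s3 s4 s5 t0 t1 t2 t3 t4 t5 hx hI e1 e2 e3 e4 g0 g1 g2 g3 g4 g5 k0 k1
      k2 k3 k4 k5
    have := g0 a0
    have := g3 a3
    have := g5 a5
    have := k0 b0
    have := k1 b1
    have := k2 b2
    omega) (hK 2 (by omega))
  simp at this

/-- `S → e, S, a, aa`. -/
lemma neg6 : ¬ No Sp ([3, 4], []) := by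
  rintro ⟨h1, _⟩
  simp only [mem_cons, forall_eq_or_imp, not_mem_nil, false_imp_iff, forall_const, and_true] at h1
  obtain ⟨a3, a4⟩ := h1
  have := inv hd (fun x y => (x = 1 ∧ y = 0) ∨ (x = 0 ∧ y ≤ 2)) (Or.inl ⟨rfl, rfl⟩) (by
    intro x y x' y' s0 s1 s2 s3 s4 s5 t0 t1 t2 t3 t4 t5 hx hI e1 e2 e3 e4 g0 g1 g2 g3 g4 g5 k0 k1
      k2 k3 k4 k5
    have := g3 a3
    have := g4 a4
    omega) (hK 3 (by omega))
  simp at this

/-- `S → e, S, SS, aa`, `a → Sa, aS, a, aa`. -/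
lemma neg7 : ¬ No Sp ([2, 4], [0, 1, 3]) := by
  rintro ⟨h1, h2⟩
  simp only [mem_cons, forall_eq_or_imp, not_mem_nil, false_imp_iff, forall_const, and_true] at h1 h2
  obtain ⟨a2, a4⟩ := h1
  obtain ⟨b0, b1, b3⟩ := h2
  have := inv hd (fun _ y => y ≠ 1) (by simp) (by
    intro x y x' y' s0 s1 s2 s3 s4 s5 t0 t1 t2 t3 t4 t5 hx hI e1 e2 e3 e4 g0 g1 g2 g3 g4 g5 k0 k1
      k2 k3 k4 k5
    have := g2 a2
    have := g4 a4
    have := k0 b0
    have := k1 b1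
    have := k3 b3
    omega) (hK 1 (by omega))
  simp at this

/-- `S → Sa, aS, a, aa`, `a → S, SS, Sa, aS`. -/
lemma neg8 : ¬ No Sp ([0, 1, 3], [0, 2, 5]) := by
  rintro ⟨h1, h2⟩
  simp only [mem_cons, forall_eq_or_imp, not_mem_nil, false_imp_iff, forall_const, and_true] at h1 h2
  obtain ⟨a0, a1, a3⟩ := h1
  obtain ⟨b0, b2, b5⟩ := h2
  have := inv hd (fun x y => (x = 1 ∧ y = 0) ∨ (x = 0 ∧ y ≤ 2) ∨ (1 ≤ x ∧ 1 ≤ y))
    (Or.inl ⟨rfl, rfl⟩) (by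
    intro x y x' y' s0 s1 s2 s3 s4 s5 t0 t1 t2 t3 t4 t5 hx hI e1 e2 e3 e4 g0 g1 g2 g3 g4 g5 k0 k1
      k2 k3 k4 k5
    have := g0 a0
    have := g1 a1
    have := g3 a3
    have := k0 b0
    have := k2 b2
    have := k5 b5
    omega) (hK 3 (by omega))
  simp at this

/-- `S → e, S, Sa, aS, a, aa`, `a → Sa, aS`. -/
lemma neg10 : ¬ No Sp ([3], [0, 1, 2, 3, 5]) := by
  rintro ⟨h1, h2⟩
  simp only [mem_cons, forall_eq_or_imp, not_mem_nil, false_imp_iff, forall_const, and_true] at h1 h2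
  obtain ⟨b0, b1, b2, b3, b5⟩ := h2
  have := inv hd (fun x y => (x = 1 ∧ y = 0) ∨ (x = 0 ∧ y ≤ 2) ∨ (1 ≤ x ∧ 1 ≤ y))
    (Or.inl ⟨rfl, rfl⟩) (by
    intro x y x' y' s0 s1 s2 s3 s4 s5 t0 t1 t2 t3 t4 t5 hx hI e1 e2 e3 e4 g0 g1 g2 g3 g4 g5 k0 k1
      k2 k3 k4 k5
    have := g3 h1
    have := k0 b0
    have := k1 b1
    have := k2 b2
    have := k3 b3
    have := k5 b5
    omega) (hK 3 (by omega))
  simp at this

/-- `S → S, SS, Sa, aS, aa`. -/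
lemma neg11 : ¬ No Sp ([0, 2], []) := by
  rintro ⟨h1, _⟩
  simp only [mem_cons, forall_eq_or_imp, not_mem_nil, false_imp_iff, forall_const, and_true] at h1
  obtain ⟨a0, a2⟩ := h1
  have := inv hd (fun x y => 1 ≤ x ∨ 2 ≤ y) (Or.inl le_rfl) (by
    intro x y x' y' s0 s1 s2 s3 s4 s5 t0 t1 t2 t3 t4 t5 hx hI e1 e2 e3 e4 g0 g1 g2 g3 g4 g5 k0 k1
      k2 k3 k4 k5
    have := g0 a0
    have := g2 a2
    omega) (hK 1 (by omega))
  simp at this

/-- `S → e, S, SS, Sa, aS, aa`, `a → e, S, SS, Sa, aS, aa`. -/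
lemma neg12 : ¬ No Sp ([2], [2]) := by
  rintro ⟨h1, h2⟩
  simp only [mem_cons, forall_eq_or_imp, not_mem_nil, false_imp_iff, forall_const, and_true] at h1 h2
  have := inv hd (fun x y => 1 ≤ x ∨ y % 2 = 0) (Or.inl le_rfl) (by
    intro x y x' y' s0 s1 s2 s3 s4 s5 t0 t1 t2 t3 t4 t5 hx hI e1 e2 e3 e4 g0 g1 g2 g3 g4 g5 k0 k1
      k2 k3 k4 k5
    have := g2 h1
    have := k2 h2
    omega) (hK 1 (by omega))
  simp at this

end Pool.Agent.Helper21.EOLS
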