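import Pool.Agent.Helper21.EOLS.Neg
import Pool.Agent.Helper21.EOLS.Defs

/-!
# The classification of the short `{S, a}`-forms
-/

namespace Pool.Agent.Helper21.EOLS

open List Pool.Agent.Helper76.EOL Pool.Agent.Helper79.EOL

variable {Sp : Bool → List Bool → Prop}

/-- All right-hand sides are in the given lists. -/
def WB (Sp : Bool → List Bool → Prop) (t : List (List Bool) × List (List Bool)) : Prop :=
  (∀ w, Sp true w → w ∈ t.1) ∧ ∀ w, Sp false w → w ∈ t.2

lemma mem_all (w : List Bool) (h : w.length ≤ 2) : w ∈ allWords true false := by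
  match w, h with
  | [], _ => decide
  | [x], _ => cases x <;> decide
  | [x, y], _ => cases x <;> cases y <;> decide

lemma out (hd : ∀ x w, Sp x w → w.length ≤ 2) {t : List (List Bool) × List (List Bool)}
    (h : ¬ WB Sp t) : (∃ w ∈ allWords true false, w ∉ t.1 ∧ Sp true w) ∨
      ∃ w ∈ allWords true false, w ∉ t.2 ∧ Sp false w := by
  by_contra hcon
  push Not at hcon
  obtain ⟨h1, h2⟩ := hcon
  apply h
  constructor
  · intro w hw
    by_contra h3
    exact h1 w (mem_all w (hd _ _ hw)) h3 hw
  · intro w hw
    by_contra h3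
    exact h2 w (mem_all w (hd _ _ hw)) h3 hw

theorem pair_ok : ∀ p ∈ cnf.zip (shortTable true false),
    ((∀ v ∈ p.2.1, ∀ i ∈ p.1.1, ty i ≠ (v.count true, v.count false)) ∧
      ∀ v ∈ p.2.2, ∀ i ∈ p.1.2, ty i ≠ (v.count true, v.count false)) ∧
    (∀ v ∈ allWords true false, v ∈ p.2.1 ∨ ∃ i ∈ p.1.1, ty i = (v.count true, v.count false)) ∧
    ∀ v ∈ allWords true false, v ∈ p.2.2 ∨ ∃ i ∈ p.1.2, ty i = (v.count true, v.count false) := by
  decide +kernel

theorem pair_left : ∀ c ∈ cnf, ∃ t ∈ shortTable true false,
    (c, t) ∈ cnf.zip (shortTable true false) := by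
  decide +kernel

theorem pair_right : ∀ t ∈ shortTable true false,
    (∃ c ∈ cnf, (c, t) ∈ cnf.zip (shortTable true false)) ∨
      t = ([[true], [true, false], [false, true], [false], [false, false]],
        [[true, false], [false], [false, false]]) ∨
      t = ([[true], [true, false], [false, true], [false], [false, false]],
        [[false, true], [false], [false, false]]) := by
  decide +kernel

lemma no_of_wb {c : List ℕ × List ℕ} {t : List (List Bool) × List (List Bool)}
    (hct : (c, t) ∈ cnf.zip (shortTable true false)) (h : WB Sp t) : No Sp c := by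
  obtain ⟨⟨h1, h2⟩, _, _⟩ := pair_ok _ hct
  constructor
  · rintro i hi ⟨w, hw, h3, h4⟩
    exact h1 w (h.1 w hw) i hi (Prod.ext h3.symm h4.symm)
  · rintro i hi ⟨w, hw, h3, h4⟩
    exact h2 w (h.2 w hw) i hi (Prod.ext h3.symm h4.symm)

lemma cnf_of_not_wb (hd : ∀ x w, Sp x w → w.length ≤ 2) {c : List ℕ × List ℕ}
    {t : List (List Bool) × List (List Bool)}
    (hct : (c, t) ∈ cnf.zip (shortTable true false)) (h : ¬ WB Sp t) :
    (∃ i ∈ c.1, Q Sp true (ty i)) ∨ ∃ i ∈ c.2, Q Sp false (ty i) := by
  obtain ⟨_, h1, h2⟩ := pair_ok _ hct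
  rcases out hd h with ⟨w, hw, h3, h4⟩ | ⟨w, hw, h3, h4⟩
  · rcases h1 w hw with h5 | ⟨i, hi, h5⟩
    · exact absurd h5 h3
    · exact Or.inl ⟨i, hi, w, h4, by rw [h5], by rw [h5]⟩
  · rcases h2 w hw with h5 | ⟨i, hi, h5⟩
    · exact absurd h5 h3
    · exact Or.inr ⟨i, hi, w, h4, by rw [h5], by rw [h5]⟩

/-- The conditions on single productions for a relation. -/
def CR (Sp : Bool → List Bool → Prop) : Prop :=
  ((∃ x, Sp x []) ∧ CondE Sp) ∨ ((∀ x w, Sp x w → w ≠ []) ∧ CondP Sp)

lemma two_of (hd : ∀ x w, Sp x w → w.length ≤ 2) {x : Bool} {j : ℕ} (hj : 2 ≤ j)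
    (h : Sp x (replicate j true)) : Sp x [true, true] := by
  have := hd _ _ h
  rw [length_replicate] at this
  have hj : j = 2 := by omega
  subst hj
  exact h

lemma negR (hd : ∀ x w, Sp x w → w.length ≤ 2) (hR : CR Sp) (h0 : ∀ x, ¬ Sp x [])
    (h1 : ¬ Sp false [true])
    (h2 : ¬ Sp true [true] ∨ (¬ Sp true [true, true] ∧ ¬ Sp false [true, true] ∧
      (¬ Sp false [false] ∨ ¬ Sp false [true, false] ∨ ¬ Sp false [false, true]))) : False := by
  rcases hR with ⟨⟨x, hx⟩, _⟩ | ⟨_, hP⟩
  · exact h0 x hx
  rcases hP with h | ⟨h3, ⟨j, hj, h⟩ | ⟨j, hj, h⟩⟩ | ⟨h3, h4, _, ⟨i, hi, h5⟩, j, hj, h6⟩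
  · exact h1 h
  · rcases h2 with h2 | ⟨h2, _⟩
    · exact h2 h3
    · exact h2 (two_of hd hj h)
  · rcases h2 with h2 | ⟨_, h2, _⟩
    · exact h2 h3
    · exact h2 (two_of hd hj h)
  · have hi' := hd _ _ h5
    rw [length_append, length_replicate, length_singleton] at hi'
    have hi : i = 1 := by omega
    subst hi
    have hj' := hd _ _ h6
    rw [length_cons, length_replicate] at hj'
    have hj : j = 1 := by omega
    subst hj
    rcases h2 with h2 | ⟨_, _, h2 | h2 | h2⟩
    · exact h2 h3
    · exact h2 h4
    · exact h2 h5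
    · exact h2 h6

/-- A complete short form is in none of the sets. -/
theorem neg_all (hd : ∀ x w, Sp x w → w.length ≤ 2) (hA : ∃ w, Sp false w ∧ true ∈ w)
    (hK : ∀ k, 1 ≤ k → GK Sp k) (hR : CR Sp) : ∀ t ∈ shortTable true false, ¬ WB Sp t := by
  intro t ht hW
  rcases pair_right t ht with ⟨c, hc, hct⟩ | rfl | rfl
  · have hN := no_of_wb hct hW
    have hq : ∀ {x : Bool} {w : List Bool} {i : ℕ}, Sp x w → w.count true = (ty i).1 →
        w.count false = (ty i).2 → Q Sp x (ty i) := fun h1 h2 h3 => ⟨_, h1, h2, h3⟩
    simp only [cnf, mem_cons, not_mem_nil, or_false] at hc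
    rcases hc with rfl | rfl | rfl | rfl | rfl | rfl | rfl | rfl | rfl | rfl | rfl | rfl | rfl | rfl
    · exact neg1 hd hK hN
    · exact neg2 hd hK hN
    · exact neg3 hd hK hN
    · exact neg4 hd hK hN
    · exact neg5 hd hK hN
    · exact neg6 hd hK hN
    · exact neg7 hd hK hN
    · exact neg8 hd hK hN
    · obtain ⟨h1, h2⟩ := hN
      refine negR hd hR ?_ (fun h => h2 1 (by simp) (hq h rfl rfl))
        (Or.inr ⟨fun h => h1 3 (by simp) (hq h rfl rfl), fun h => h2 3 (by simp) (hq h rfl rfl),
          Or.inl fun h => h2 2 (by simp) (hq h rfl rfl)⟩)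
      intro x hx
      cases x
      · exact h2 0 (by simp) (hq hx rfl rfl)
      · exact h1 0 (by simp) (hq hx rfl rfl)
    · exact neg10 hd hK hN
    · exact neg11 hd hK hN
    · exact neg12 hd hK hN
    · obtain ⟨h1, h2⟩ := hN
      refine negR hd hR ?_ (fun h => h2 1 (by simp) (hq h rfl rfl))
        (Or.inl fun h => h1 1 (by simp) (hq h rfl rfl))
      intro x hx
      cases x
      · exact h2 0 (by simp) (hq hx rfl rfl)
      · exact h1 0 (by simp) (hq hx rfl rfl)
    · obtain ⟨_, h2⟩ := hN
      obtain ⟨w, hw, hw1⟩ := hA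
      have h3 := mem_all w (hd _ _ hw)
      simp only [allWords, mem_cons, not_mem_nil, or_false] at h3
      rcases h3 with rfl | rfl | rfl | rfl | rfl | rfl | rfl
      · simp at hw1
      · exact h2 1 (by simp) (hq hw rfl rfl)
      · simp at hw1
      · exact h2 3 (by simp) (hq hw rfl rfl)
      · exact h2 4 (by simp) (hq hw rfl rfl)
      · exact h2 4 (by simp) (hq hw rfl rfl)
      · simp at hw1
  · obtain ⟨h1, h2⟩ := hW
    refine negR hd hR ?_ (fun h => by simpa using h2 _ h)
      (Or.inr ⟨fun h => by simpa using h1 _ h, fun h => by simpa using h2 _ h,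
        Or.inr (Or.inr fun h => by simpa using h2 _ h)⟩)
    intro x hx
    cases x
    · simpa using h2 _ hx
    · simpa using h1 _ hx
  · obtain ⟨h1, h2⟩ := hW
    refine negR hd hR ?_ (fun h => by simpa using h2 _ h)
      (Or.inr ⟨fun h => by simpa using h1 _ h, fun h => by simpa using h2 _ h,
        Or.inr (Or.inl fun h => by simpa using h2 _ h)⟩)
    intro x hx
    cases x
    · simpa using h2 _ hx
    · simpa using h1 _ hx

/-- A short form in none of the sets satisfies the conditions. -/
theorem pos_all (hd : ∀ x w, Sp x w → w.length ≤ 2) (h : ∀ t ∈ shortTable true false, ¬ WB Sp t) :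
    (∃ w, Sp false w ∧ true ∈ w) ∧ (∀ k, 1 ≤ k → k ≤ 6 → GK Sp k) ∧ CR Sp := by
  have hA : ∃ w, Sp false w ∧ true ∈ w := by
    rcases out hd (h (allWords true false, [[], [false], [false, false]]) (by decide +kernel)) with
      ⟨w, hw, h1, _⟩ | ⟨w, hw, h1, h2⟩
    · exact absurd hw h1
    · refine ⟨w, h2, ?_⟩
      simp only [allWords, mem_cons, not_mem_nil, or_false] at hw
      rcases hw with rfl | rfl | rfl | rfl | rfl | rfl | rfl <;> simp at h1 ⊢
  refine ⟨hA, ?_, ?_⟩
  · apply gk_of_cnf
    intro c hc
    obtain ⟨t, ht, hct⟩ := pair_left c hc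
    exact cnf_of_not_wb hd hct (h t ht)
  · by_cases he : ∃ x, Sp x []
    · refine Or.inl ⟨he, Or.inl ?_⟩
      obtain ⟨w, hw, hw1⟩ := hA
      refine ⟨w, hw, ?_, ?_⟩
      · have h3 := mem_all w (hd _ _ hw)
        simp only [allWords, mem_cons, not_mem_nil, or_false] at h3
        rcases h3 with rfl | rfl | rfl | rfl | rfl | rfl | rfl <;> simp at hw1 ⊢
      · rintro rfl
        simp at hw1
    · push Not at he
      refine Or.inr ⟨?_, ?_⟩
      · rintro x w hw rfl
        exact he x hw
      by_cases h1 : Sp false [true]
      · exact Or.inl h1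
      have h2 : Sp true [true] := by
        rcases out hd (h ([[true, true], [true, false], [false, true], [false], [false, false]],
          [[true, true], [true, false], [false, true], [false], [false, false]])
          (by decide +kernel)) with ⟨w, hw, h3, h4⟩ | ⟨w, hw, h3, h4⟩
        · simp only [allWords, mem_cons, not_mem_nil, or_false] at hw
          rcases hw with rfl | rfl | rfl | rfl | rfl | rfl | rfl
          · exact absurd h4 (he _)
          · exact h4
          all_goals simp at h3
        · simp only [allWords, mem_cons, not_mem_nil, or_false] at hw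
          rcases hw with rfl | rfl | rfl | rfl | rfl | rfl | rfl
          · exact absurd h4 (he _)
          · exact absurd h4 h1
          all_goals simp at h3
      by_cases h3 : Sp true [true, true]
      · exact Or.inr (Or.inl ⟨h2, Or.inl ⟨2, le_rfl, h3⟩⟩)
      by_cases h4 : Sp false [true, true]
      · exact Or.inr (Or.inl ⟨h2, Or.inr ⟨2, le_rfl, h4⟩⟩)
      refine Or.inr (Or.inr ⟨h2, ?_, ?_, ⟨1, le_rfl, ?_⟩, ⟨1, le_rfl, ?_⟩⟩)
      · rcases out hd (h ([[true], [true, false], [false, true], [false], [false, false]],
          [[true, false], [false, true], [false, false]]) (by decide +kernel)) with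
          ⟨w, hw, h5, h6⟩ | ⟨w, hw, h5, h6⟩
        · simp only [allWords, mem_cons, not_mem_nil, or_false] at hw
          rcases hw with rfl | rfl | rfl | rfl | rfl | rfl | rfl
          · exact absurd h6 (he _)
          · simp at h5
          · simp at h5
          · exact absurd h6 h3
          all_goals simp at h5
        · simp only [allWords, mem_cons, not_mem_nil, or_false] at hw
          rcases hw with rfl | rfl | rfl | rfl | rfl | rfl | rfl
          · exact absurd h6 (he _)
          · exact absurd h6 h1
          · exact h6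
          · exact absurd h6 h4
          all_goals simp at h5
      · rcases out hd (h ([[], [true], [false], [false, false]], allWords true false)
          (by decide +kernel)) with ⟨w, hw, h5, h6⟩ | ⟨w, hw, h5, h6⟩
        · simp only [allWords, mem_cons, not_mem_nil, or_false] at hw
          rcases hw with rfl | rfl | rfl | rfl | rfl | rfl | rfl
          · simp at h5
          · simp at h5
          · simp at h5
          · exact absurd h6 h3
          · exact ⟨_, h6, by simp, by simp⟩
          · exact ⟨_, h6, by simp, by simp⟩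
          · simp at h5
        · exact absurd hw h5
      · rcases out hd (h ([[true], [true, false], [false, true], [false], [false, false]],
          [[false, true], [false], [false, false]]) (by decide +kernel)) with
          ⟨w, hw, h5, h6⟩ | ⟨w, hw, h5, h6⟩
        · simp only [allWords, mem_cons, not_mem_nil, or_false] at hw
          rcases hw with rfl | rfl | rfl | rfl | rfl | rfl | rfl
          · exact absurd h6 (he _)
          · simp at h5
          · simp at h5
          · exact absurd h6 h3
          all_goals simp at h5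
        · simp only [allWords, mem_cons, not_mem_nil, or_false] at hw
          rcases hw with rfl | rfl | rfl | rfl | rfl | rfl | rfl
          · exact absurd h6 (he _)
          · exact absurd h6 h1
          · simp at h5
          · exact absurd h6 h4
          · exact h6
          all_goals simp at h5
      · rcases out hd (h ([[true], [true, false], [false, true], [false], [false, false]],
          [[true, false], [false], [false, false]]) (by decide +kernel)) with
          ⟨w, hw, h5, h6⟩ | ⟨w, hw, h5, h6⟩
        · simp only [allWords, mem_cons, not_mem_nil, or_false] at hw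
          rcases hw with rfl | rfl | rfl | rfl | rfl | rfl | rfl
          · exact absurd h6 (he _)
          · simp at h5
          · simp at h5
          · exact absurd h6 h3
          all_goals simp at h5
        · simp only [allWords, mem_cons, not_mem_nil, or_false] at hw
          rcases hw with rfl | rfl | rfl | rfl | rfl | rfl | rfl
          · exact absurd h6 (he _)
          · exact absurd h6 h1
          · simp at h5
          · exact absurd h6 h4
          · simp at h5
          · exact h6
          · simp at h5

variable {F : Grammar} {a : ℕ}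

lemma table_map (S a : ℕ) : shortTable S a = (shortTable true false).map
    (fun t => (t.1.map (List.map fun b => if b = true then S else a),
      t.2.map (List.map fun b => if b = true then S else a))) := by
  simp [shortTable, allWords]

lemma within_iff (hF : IsSaForm F a) (t : List (List Bool) × List (List Bool)) :
    Within F a (t.1.map (List.map fun b => if b = true then F.S else a),
      t.2.map (List.map fun b => if b = true then F.S else a)) ↔ WB (Sh F a) t := by
  have hinj : Function.Injective (List.map (sl F a)) := map_injective_iff.2 (sl_inj hF)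
  have hmem : ∀ (l : List (List Bool)) (w : List Bool),
      w.map (sl F a) ∈ l.map (List.map fun b => if b = true then F.S else a) ↔ w ∈ l := by
    intro l w
    exact mem_map_of_injective hinj
  unfold Within WB
  constructor
  · rintro ⟨h1, h2⟩
    exact ⟨fun w hw => (hmem _ _).1 (h1 _ hw), fun w hw => (hmem _ _).1 (h2 _ hw)⟩
  · rintro ⟨h1, h2⟩
    constructor
    · intro α hα
      obtain ⟨w, hw, rfl⟩ := (pr_form hF (b := true)).1 (show pr F (sl F a true) α from hα)
      exact (hmem _ _).2 (h1 w hw)
    · intro α hα
      obtain ⟨w, hw, rfl⟩ := (pr_form hF (b := false)).1 (show pr F (sl F a false) α from hα)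
      exact (hmem _ _).2 (h2 w hw)

/-- The explicit classification of the short forms. -/
theorem short_iff (hF : IsSaForm F a) (hd : ∀ p ∈ F.P, p.2.length ≤ 2) :
    Complete F ↔ ∀ t ∈ shortTable F.S a, ¬ Within F a t := by
  have hd' : ∀ x w, Sh F a x w → w.length ≤ 2 := by
    intro x w h
    have := hd _ h
    simpa using this
  have hA : (∃ α, (a, α) ∈ F.P ∧ F.S ∈ α) ↔ ∃ w, Sh F a false w ∧ true ∈ w := by
    have h1 := exists_true_iff hF false (fun α => F.S ∈ α)
    rw [sl_false] at h1
    rw [h1]
    simp only [mem_map_sl hF]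
  have hT : (∀ t ∈ shortTable F.S a, ¬ Within F a t) ↔
      ∀ t ∈ shortTable true false, ¬ WB (Sh F a) t := by
    rw [table_map]
    constructor
    · intro h t ht hW
      exact h _ (mem_map_of_mem ht) ((within_iff hF t).2 hW)
    · intro h t ht hW
      obtain ⟨s, hs, rfl⟩ := mem_map.1 ht
      exact h s hs ((within_iff hF s).1 hW)
  rw [hT, complete_iff hF, hA, condR_iff hF]
  constructor
  · rintro ⟨h1, h2, h3⟩
    exact neg_all hd' h1 (fun k hk => (guarded_iff hF).1 (h2 k hk)) h3
  · intro h
    obtain ⟨h1, h2, h3⟩ := pos_all hd' h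
    refine ⟨h1, ?_, h3⟩
    intro k hk
    rw [guarded_iff hF]
    exact (K_finite hd' h1 h3 (fun k hk1 hk2 => h2 k hk1 (by omega)) k hk).gk

end Pool.Agent.Helper21.EOLS
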